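import Pool.Agent.J4.H71.ST.DefsC

/-!
# The insertion is the adjoint of the contraction
-/

set_option autoImplicit false

namespace Pool.Agent.J4.H71.ST

open Module Finset Function

namespace Adj

/-- the standard basis vector with the index `α` -/
def vc {ι : Type} {V : ι → Type} (e f : ∀ i, ℕ → V i) {g : ι → ℕ} (i : ι) (α : Bool × Fin (g i)) : V i :=
  if α.1 then e i α.2 else f i α.2

section

variable {ι : Type} {V : ι → Type} [∀ i, AddCommGroup (V i)] [∀ i, Module ℂ (V i)]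
  {ω : ∀ i, V i →ₗ[ℂ] V i →ₗ[ℂ] ℂ}

theorem fe {W : Type} [AddCommGroup W] [Module ℂ W] {ω : W →ₗ[ℂ] W →ₗ[ℂ] ℂ} {g : ℕ} {e f : ℕ → W}
    (hd : Dbx ω g e f) (p q : ℕ) (hp : p < g) (hq : q < g) : ω (f p) (e q) = if q = p then -1 else 0 := by
  have h1 := congrArg (fun x => ω (e q) x) (hd.span (f p))
  simp only [map_sum, map_sub, map_smul, hd.ee, hd.ff, smul_eq_mul, mul_zero, zero_sub] at h1
  rw [hd.ef q p hq hp] at h1
  have h2 : ∑ x ∈ range g, -(ω (f p) (e x) * ω (e q) (f x)) = -ω (f p) (e q) := by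
    rw [Finset.sum_eq_single q]
    · rw [hd.ef q q hq hq]; simp
    · intro r hr hrq
      rw [hd.ef q r hq (mem_range.1 hr), if_neg (Ne.symm hrq)]
      simp
    · intro h
      exact absurd (mem_range.2 hq) h
  rw [h2] at h1
  rw [← neg_eq_iff_eq_neg.2 h1]
  split_ifs <;> simp

theorem om_real {g : ι → ℕ} {e f : ∀ i, ℕ → V i} {i j : ι} (hij : i = j)
    (hd : Dbx (ω i) (g i) (e i) (f i)) (α : Bool × Fin (g i)) (β : Bool × Fin (g j)) :
    (starRingEnd ℂ) (om ω hij (vc e f i α) (vc e f j β)) = om ω hij (vc e f i α) (vc e f j β) := by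
  subst hij
  show (starRingEnd ℂ) (ω i (vc e f i α) (vc e f i β)) = ω i (vc e f i α) (vc e f i β)
  obtain ⟨a, p⟩ := α
  obtain ⟨b, q⟩ := β
  cases a <;> cases b <;> simp only [vc, if_true, if_false, Bool.false_eq_true]
  · rw [hd.ff]; simp
  · rw [fe hd _ _ p.2 q.2]; split_ifs <;> simp
  · rw [hd.ef _ _ p.2 q.2]; split_ifs <;> simp
  · rw [hd.ee]; simp

theorem pair_sum {g : ι → ℕ} {e f : ∀ i, ℕ → V i} {i j : ι} (hij : i = j)
    (hd : Dbx (ω i) (g i) (e i) (f i)) {A : Type} [AddCommGroup A] [Module ℂ A] (F : V i → V j → A) :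
    ∑ α : Bool × Fin (g i), ∑ β : Bool × Fin (g j),
      om ω hij (vc e f i α) (vc e f j β) • F (vc e f i α) (vc e f j β) =
      ∑ p ∈ range (g i), (F (e i p) (f j p) - F (f i p) (e j p)) := by
  subst hij
  show ∑ α : Bool × Fin (g i), ∑ β : Bool × Fin (g i),
      ω i (vc e f i α) (vc e f i β) • F (vc e f i α) (vc e f i β) = _
  simp only [Fintype.sum_prod_type, Fintype.sum_bool, vc, if_true, if_false, Bool.false_eq_true, hd.ee, hd.ff,
    zero_smul, sum_const_zero, zero_add, add_zero]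
  have h1 : ∀ x : Fin (g i), ∑ y : Fin (g i), ω i (e i x) (f i y) • F (e i x) (f i y) = F (e i x) (f i x) := by
    intro x
    rw [Finset.sum_eq_single x]
    · rw [hd.ef _ _ x.2 x.2, if_pos rfl, one_smul]
    · intro y _ hy
      rw [hd.ef _ _ x.2 y.2, if_neg (fun h => hy (Fin.ext h.symm)), zero_smul]
    · intro h; exact absurd (mem_univ _) h
  have h2 : ∀ x : Fin (g i), ∑ y : Fin (g i), ω i (f i x) (e i y) • F (f i x) (e i y) = -F (f i x) (e i x) := by
    intro x
    rw [Finset.sum_eq_single x]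
    · rw [fe hd _ _ x.2 x.2, if_pos rfl, neg_one_smul]
    · intro y _ hy
      rw [fe hd _ _ x.2 y.2, if_neg (fun h => hy (Fin.ext h)), zero_smul]
    · intro h; exact absurd (mem_univ _) h
  simp only [h1, h2]
  rw [← Finset.sum_add_distrib, Finset.sum_range]
  exact Finset.sum_congr rfl fun x _ => by rw [sub_eq_add_neg]

end

theorem sum3 {A B C : Type} [Fintype A] [Fintype B] [Fintype C] (G : A × B × C → ℂ) :
    ∑ t, G t = ∑ c, ∑ α, ∑ β, G (α, β, c) := by
  calc ∑ t, G t = ∑ α, ∑ β, ∑ c, G (α, β, c) := by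
        rw [Fintype.sum_prod_type]
        exact Finset.sum_congr rfl fun α _ => Fintype.sum_prod_type _
    _ = ∑ α, ∑ c, ∑ β, G (α, β, c) := Finset.sum_congr rfl fun α _ => Finset.sum_comm
    _ = _ := Finset.sum_comm

/-- The index set of the standard basis vectors is a product. -/
theorem split_bijective {ι : Type} {g : ι → ℕ} {S : Type} [DecidableEq S] {s : S → ι} {a b : S} (hab : a ≠ b) :
    Bijective (fun σ : Bx g s => ((σ a, σ b, fun x => σ x.1) :
      (Bool × Fin (g (s a))) × (Bool × Fin (g (s b))) × Bx g (fun x : {x : S // x ≠ a ∧ x ≠ b} => s x.1))) := by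
  constructor
  · intro σ τ h
    simp only [Prod.mk.injEq] at h
    obtain ⟨h1, h2, h3⟩ := h
    funext x
    by_cases hxa : x = a
    · subst hxa; exact h1
    by_cases hxb : x = b
    · subst hxb; exact h2
    exact congrFun h3 ⟨x, hxa, hxb⟩
  · rintro ⟨α, β, σ'⟩
    refine ⟨fun x => if ha : x = a then ha ▸ α else if hb : x = b then hb ▸ β else σ' ⟨x, ha, hb⟩, ?_⟩
    simp only [Prod.mk.injEq]
    refine ⟨by simp, by simp [hab.symm], ?_⟩
    funext x
    simp [x.2.1, x.2.2]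

theorem bv_ext {ι : Type} {V : ι → Type} [∀ i, AddCommGroup (V i)] {e f : ∀ i, ℕ → V i} {g : ι → ℕ} {S : Type}
    [DecidableEq S] {s : S → ι} {a b : S} (hab : a ≠ b) (σ : Bx g s) :
    bv e f σ = ext a b (bv e f (s := fun x : {x : S // x ≠ a ∧ x ≠ b} => s x.1) (fun x => σ x.1))
      (vc e f (s a) (σ a)) (vc e f (s b) (σ b)) := by
  funext x
  unfold ext
  by_cases hxb : x = b
  · subst hxb
    rw [update_self]
    rfl
  rw [update_of_ne hxb]
  by_cases hxa : x = a
  · subst hxa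
    rw [update_self]
    rfl
  rw [update_of_ne hxa, dif_pos ⟨hxa, hxb⟩]
  rfl

end Adj

open Adj

variable {ι : Type} {V : ι → Type} [∀ i, AddCommGroup (V i)] [∀ i, Module ℂ (V i)] {U : Type}
  [AddCommGroup U] [Module ℂ U] [FiniteDimensional ℂ U] {ω : ∀ i, V i →ₗ[ℂ] V i →ₗ[ℂ] ℂ}

theorem hf_adj {n : ℕ} (B : Basis (Fin n) ℂ U) {g : ι → ℕ} {e f : ∀ i, ℕ → V i} {S : Type}
    [Fintype S] [DecidableEq S] {s : S → ι}
    (hd : ∀ x : S, Dbx (ω (s x)) (g (s x)) (e (s x)) (f (s x))) {a b : S} (hab : a ≠ b)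
    (hs : s a = s b) (h : MultilinearMap ℂ (fun x : {x : S // x ≠ a ∧ x ≠ b} => V (s x.1)) U)
    (h' Eh : MultilinearMap ℂ (fun x : S => V (s x)) U)
    (Ch' : MultilinearMap ℂ (fun x : {x : S // x ≠ a ∧ x ≠ b} => V (s x.1)) U)
    (hE : ∀ v, Eh v = om ω hs (v a) (v b) • h (fun x => v x.1))
    (hC : ∀ v, Ch' v = ∑ p ∈ range (g (s a)), (h' (ext a b v (e (s a) p) (f (s b) p)) -
        h' (ext a b v (f (s a) p) (e (s b) p)))) :
    hf B e f g s Eh h' = hf B e f g (fun x : {x : S // x ≠ a ∧ x ≠ b} => s x.1) h Ch' := by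
  have key : ∀ σ' : Bx g (fun x : {x : S // x ≠ a ∧ x ≠ b} => s x.1),
      Ch' (bv e f σ') = ∑ α : Bool × Fin (g (s a)), ∑ β : Bool × Fin (g (s b)),
        om ω hs (vc e f (s a) α) (vc e f (s b) β) •
          h' (ext a b (bv e f σ') (vc e f (s a) α) (vc e f (s b) β)) := by
    intro σ'
    rw [hC, pair_sum hs (hd a) (fun x y => h' (ext a b (bv e f σ') x y))]
  unfold hf
  rw [Fintype.sum_bijective (fun σ : Bx g s => ((σ a, σ b, fun x => σ x.1) :
      (Bool × Fin (g (s a))) × (Bool × Fin (g (s b))) × Bx g (fun x : {x : S // x ≠ a ∧ x ≠ b} => s x.1)))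
      (split_bijective hab) _
      (fun t => ∑ k, B.repr (h (bv e f t.2.2)) k * (starRingEnd ℂ) (B.repr
        (om ω hs (vc e f (s a) t.1) (vc e f (s b) t.2.1) •
          h' (ext a b (bv e f t.2.2) (vc e f (s a) t.1) (vc e f (s b) t.2.1))) k))]
  · rw [sum3]
    refine Finset.sum_congr rfl fun σ' _ => ?_
    symm
    have h1 : ∀ k, B.repr (h (bv e f σ')) k * (starRingEnd ℂ) (B.repr (Ch' (bv e f σ')) k) =
        ∑ α : Bool × Fin (g (s a)), ∑ β : Bool × Fin (g (s b)), B.repr (h (bv e f σ')) k *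
          (starRingEnd ℂ) (B.repr (om ω hs (vc e f (s a) α) (vc e f (s b) β) •
            h' (ext a b (bv e f σ') (vc e f (s a) α) (vc e f (s b) β))) k) := by
      intro k
      rw [key σ']
      simp only [map_sum, Finsupp.coe_finsetSum, Finset.sum_apply, mul_sum]
    rw [Finset.sum_congr rfl fun k _ => h1 k, Finset.sum_comm]
    exact Finset.sum_congr rfl fun α _ => Finset.sum_comm
  · intro σ
    refine Finset.sum_congr rfl fun k _ => ?_
    have h1 : bv e f σ a = vc e f (s a) (σ a) := rfl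
    have h2 : bv e f σ b = vc e f (s b) (σ b) := rfl
    have h3 : (fun x : {x : S // x ≠ a ∧ x ≠ b} => bv e f σ x.1) =
      bv e f (s := fun x : {x : S // x ≠ a ∧ x ≠ b} => s x.1) (fun x => σ x.1) := rfl
    rw [hE, h1, h2, h3, ← bv_ext hab σ]
    simp only [map_smul, Finsupp.smul_apply, smul_eq_mul, map_mul, om_real hs (hd a)]
    ring

end Pool.Agent.J4.H71.ST
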