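import Pool.Agent.J4.H54.TE.Gen

/-!
# Tate classes on products of varieties of symplectic type with an arbitrary variety: definitions

`Γ` is a Galois group, `χ` the inverse of the cyclotomic character, `ρ i` the representation on the
cohomology in the middle degree `w i` of the variety `X i`, with the intersection form `ω i`, and `τ`
is an arbitrary representation (the cohomology of a variety `Z`).
-/

set_option autoImplicit false

namespace Pool.Agent.J4.H71.ST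

open Finset Function

section

variable {W W' : Type} [AddCommGroup W] [Module ℂ W] [AddCommGroup W'] [Module ℂ W']

/-- The operators `A` with `ω(A x, y) + ω(x, A y) = 0`: the symplectic Lie algebra. -/
def sp (ω : W →ₗ[ℂ] W →ₗ[ℂ] ℂ) : Submodule ℂ (Module.End ℂ W) where
  carrier := {A | ∀ x y, ω (A x) y = -ω x (A y)}
  zero_mem' := fun x y => by simp
  add_mem' := by
    intro A B hA hB x y
    have h1 := hA x y
    have h2 := hB x y
    simp only [LinearMap.add_apply, map_add, h1, h2]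
    ring
  smul_mem' := by
    intro c A hA x y
    have h1 := hA x y
    simp only [LinearMap.smul_apply, map_smul, smul_eq_mul, h1]
    ring

theorem mem_sp {ω : W →ₗ[ℂ] W →ₗ[ℂ] ℂ} {A : Module.End ℂ W} :
    A ∈ sp ω ↔ ∀ x y, ω (A x) y = -ω x (A y) := Iff.rfl

variable {Γ : Type} [Group Γ]

/-- The representation `r` is of symplectic type and of weight `w`: it has a nondegenerate alternating
form with the multiplier `χ ^ w`, `w` odd, and its symplectic Lie algebra is irreducible under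
conjugation (it is a big representation). -/
structure SymplecticType (χ : Γ →* ℂˣ) (r : Γ →* Module.End ℂ W) (ω : W →ₗ[ℂ] W →ₗ[ℂ] ℂ) (w : ℤ) :
    Prop where
  ne : ∃ x : W, x ≠ 0
  alt : ∀ x, ω x x = 0
  nondeg : ∀ x, (∀ y, ω x y = 0) → x = 0
  odd : Odd w
  mul : ∀ g x y, ω (r g x) (r g y) = (χ g : ℂ) ^ w * ω x y
  irr : ∀ P : Submodule ℂ (Module.End ℂ W), P ≤ sp ω → (∀ g, ∀ A ∈ P, r g * A * r g⁻¹ ∈ P) →
    P = ⊥ ∨ P = sp ω

/-- There is a nonzero map which is equivariant, up to a power of `χ`, under a subgroup of finite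
index. -/
def Related (χ : Γ →* ℂˣ) (r : Γ →* Module.End ℂ W) (r' : Γ →* Module.End ℂ W') : Prop :=
  ∃ f : W →ₗ[ℂ] W', f ≠ 0 ∧ ∃ (k : ℤ) (Δ : Subgroup Γ), Δ.FiniteIndex ∧
    ∀ g ∈ Δ, ∀ x, f (r g x) = ((χ g : ℂ) ^ k) • r' g (f x)

/-- The bilinear Tate classes: `β(g x, g y) = χ(g) ^ k β(x, y)` for all `g` in a subgroup of finite
index. -/
def Pairing (χ : Γ →* ℂˣ) (r : Γ →* Module.End ℂ W) (r' : Γ →* Module.End ℂ W') (k : ℤ)
    (β : W →ₗ[ℂ] W' →ₗ[ℂ] ℂ) : Prop :=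
  ∃ Δ : Subgroup Γ, Δ.FiniteIndex ∧ ∀ g ∈ Δ, ∀ x y, β (r g x) (r' g y) = (χ g : ℂ) ^ k * β x y

/-- A Darboux basis `e p`, `f p`, `p < g`; the other vectors are zero. -/
structure Dbx (ω : W →ₗ[ℂ] W →ₗ[ℂ] ℂ) (g : ℕ) (e f : ℕ → W) : Prop where
  e0 : ∀ p, g ≤ p → e p = 0
  f0 : ∀ p, g ≤ p → f p = 0
  ef : ∀ p q, p < g → q < g → ω (e p) (f q) = if p = q then 1 else 0
  ee : ∀ p q, ω (e p) (e q) = 0
  ff : ∀ p q, ω (f p) (f q) = 0
  span : ∀ x, x = ∑ p ∈ range g, (ω x (f p) • e p - ω x (e p) • f p)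

end

variable {Γ : Type} [Group Γ] {ι : Type} {V : ι → Type} [∀ i, AddCommGroup (V i)]
  [∀ i, Module ℂ (V i)]

/-- The `ρ i` are of symplectic type and pairwise unrelated. -/
structure IsSystem (χ : Γ →* ℂˣ) (ρ : ∀ i, Γ →* Module.End ℂ (V i))
    (ω : ∀ i, V i →ₗ[ℂ] V i →ₗ[ℂ] ℂ) (w : ι → ℤ) : Prop where
  type : ∀ i, SymplecticType χ (ρ i) (ω i) (w i)
  unrelated : ∀ i j, i ≠ j → ¬Related χ (ρ i) (ρ j)

section U

variable {U : Type} [AddCommGroup U] [Module ℂ U]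

/-- The element `φ` is a Frobenius element at a place with residue field of `q` elements; `v` is an
absolute value of the coefficient field above the residue characteristic. The eigenvalues on `ρ i`,
`i ∈ F`, have the absolute value `q ^ (w / 2)`, and their slopes are at least `(w + 1) / 2` or at most
`(w - 1) / 2`, where `w = w i`; and each eigenvalue on `τ` has the absolute value `q ^ (n / 2)` for an
integer `n`, and a slope between `(n - m) / 2` and `(n + m) / 2`. (The slope of `α` is `s` if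
`v(α) = v(q) ^ s`.) -/
structure FrobeniusAt (χ : Γ →* ℂˣ) (ρ : ∀ i, Γ →* Module.End ℂ (V i)) (w : ι → ℤ)
    (τ : Γ →* Module.End ℂ U) (m : ℕ) (F : Finset ι) (φ : Γ) (q : ℕ) (v : AbsoluteValue ℂ ℝ) :
    Prop where
  one_lt : 1 < q
  chi : (χ φ : ℂ) = q
  nonarch : IsNonarchimedean v
  lt_one : v (q : ℂ) < 1
  pure : ∀ i ∈ F, ∀ α : ℂ, (ρ i φ).HasEigenvalue α → ‖α‖ ^ 2 = (q : ℝ) ^ w i
  slope : ∀ i ∈ F, ∀ α : ℂ, (ρ i φ).HasEigenvalue α →
    v α ^ 2 ≤ v (q : ℂ) ^ (w i + 1) ∨ v (q : ℂ) ^ (w i - 1) ≤ v α ^ 2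
  level : ∀ α : ℂ, (τ φ).HasEigenvalue α → ∃ n : ℤ, ‖α‖ ^ 2 = (q : ℝ) ^ n ∧
    v α ^ 2 ≤ v (q : ℂ) ^ (n - m) ∧ v (q : ℂ) ^ (n + m) ≤ v α ^ 2

/-- The Tate classes: the multilinear maps `h` from the product of the spaces of the `ρ (s x)`,
`x ∈ S`, to `U` with `h (g v) = χ(g) ^ j g h(v)` for all `g` in a subgroup of finite index. -/
def Tate (χ : Γ →* ℂˣ) (ρ : ∀ i, Γ →* Module.End ℂ (V i)) (τ : Γ →* Module.End ℂ U) {S : Type}
    (s : S → ι) (j : ℤ) (h : MultilinearMap ℂ (fun x : S => V (s x)) U) : Prop :=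
  ∃ Δ : Subgroup Γ, Δ.FiniteIndex ∧ ∀ g ∈ Δ, ∀ v : ∀ x, V (s x),
    h (fun x => ρ (s x) g (v x)) = ((χ g : ℂ) ^ j) • τ g (h v)

/-- The product of a Tate class on `X i × X i`, for two positions `a`, `b` with the same variety, and
a Tate class for the other positions. -/
def IsPair (χ : Γ →* ℂˣ) (ρ : ∀ i, Γ →* Module.End ℂ (V i)) (τ : Γ →* Module.End ℂ U) {S : Type}
    (s : S → ι) (j : ℤ) (h : MultilinearMap ℂ (fun x : S => V (s x)) U) : Prop :=
  ∃ a b : S, a ≠ b ∧ s a = s b ∧ ∃ (k : ℤ) (β : V (s a) →ₗ[ℂ] V (s b) →ₗ[ℂ] ℂ),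
    Pairing χ (ρ (s a)) (ρ (s b)) k β ∧
    ∃ h' : MultilinearMap ℂ (fun x : {x : S // x ≠ a ∧ x ≠ b} => V (s x.1)) U,
      Tate χ ρ τ (fun x : {x : S // x ≠ a ∧ x ≠ b} => s x.1) (j - k) h' ∧
        ∀ v, h v = β (v a) (v b) • h' (fun x => v x.1)

/-- The combinations of the products of `IsPair`. -/
def Dec (χ : Γ →* ℂˣ) (ρ : ∀ i, Γ →* Module.End ℂ (V i)) (τ : Γ →* Module.End ℂ U) {S : Type}
    (s : S → ι) (j : ℤ) : Submodule ℂ (MultilinearMap ℂ (fun x : S => V (s x)) U) :=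
  Submodule.span ℂ {h | IsPair χ ρ τ s j h}

/-- All contractions of two positions with the same variety are zero. -/
def Traceless (g : ι → ℕ) (e f : ∀ i, ℕ → V i) {S : Type} [DecidableEq S] (s : S → ι)
    (h : MultilinearMap ℂ (fun x : S => V (s x)) U) : Prop :=
  ∀ a b : S, a ≠ b → s a = s b → ∀ v : ∀ x, V (s x),
    ∑ p ∈ range (g (s a)), h (update (update v a (e (s a) p)) b (f (s b) p)) =
      ∑ p ∈ range (g (s a)), h (update (update v a (f (s a) p)) b (e (s b) p))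

end U

/-- The multiset of the varieties. -/
def kind {S : Type} [Fintype S] (s : S → ι) : Multiset ι := (univ : Finset S).val.map s

/-- The classes generated by the Tate classes on the `X i × X i` and the Tate classes for the
multisets in `A`. -/
inductive Generated (χ : Γ →* ℂˣ) (ρ : ∀ i, Γ →* Module.End ℂ (V i)) {U : Type} [AddCommGroup U]
    [Module ℂ U] (τ : Γ →* Module.End ℂ U) (A : Set (Multiset ι)) : ∀ {S : Type} [Fintype S]
      (s : S → ι) (_ : ℤ) (_ : MultilinearMap ℂ (fun x : S => V (s x)) U), Prop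
  | of {S : Type} [Fintype S] {s : S → ι} {j : ℤ}
      {h : MultilinearMap ℂ (fun x : S => V (s x)) U} :
      kind s ∈ A → Tate χ ρ τ s j h → Generated χ ρ τ A s j h
  | zero {S : Type} [Fintype S] {s : S → ι} {j : ℤ} : Generated χ ρ τ A s j 0
  | add {S : Type} [Fintype S] {s : S → ι} {j : ℤ}
      {h h' : MultilinearMap ℂ (fun x : S => V (s x)) U} :
      Generated χ ρ τ A s j h → Generated χ ρ τ A s j h' → Generated χ ρ τ A s j (h + h')
  | pair {S : Type} [Fintype S] {s : S → ι} {j k : ℤ}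
      {h : MultilinearMap ℂ (fun x : S => V (s x)) U} (a b : S)
      [Fintype {x : S // x ≠ a ∧ x ≠ b}] {β : V (s a) →ₗ[ℂ] V (s b) →ₗ[ℂ] ℂ}
      {h' : MultilinearMap ℂ (fun x : {x : S // x ≠ a ∧ x ≠ b} => V (s x.1)) U} :
      a ≠ b → s a = s b → Pairing χ (ρ (s a)) (ρ (s b)) k β →
      Generated χ ρ τ A (fun x : {x : S // x ≠ a ∧ x ≠ b} => s x.1) (j - k) h' →
      (∀ v, h v = β (v a) (v b) • h' (fun x => v x.1)) → Generated χ ρ τ A s j h

end Pool.Agent.J4.H71.ST
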