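import Pool.Agent.J4.H71.ST.Defs

/-!
# Contractions, insertions and hermitian forms: definitions
-/

set_option autoImplicit false

namespace Pool.Agent.J4.H71.ST

open Module Finset Function

/-- positive definite hermitian forms -/
structure Herm {M : Type} [AddCommGroup M] [Module ℂ M] (b : M → M → ℂ) : Prop where
  add : ∀ x y z, b (x + y) z = b x z + b y z
  smul : ∀ (c : ℂ) x y, b (c • x) y = c * b x y
  conj : ∀ x y, b y x = (starRingEnd ℂ) (b x y)
  pos : ∀ x, x ≠ 0 → 0 < (b x x).re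

variable {ι : Type} {V : ι → Type} [∀ i, AddCommGroup (V i)] [∀ i, Module ℂ (V i)] {U : Type}
  [AddCommGroup U] [Module ℂ U]

/-- the form on two positions with the same member -/
def om (ω : ∀ i, V i →ₗ[ℂ] V i →ₗ[ℂ] ℂ) {i j : ι} (h : i = j) : V i →ₗ[ℂ] V j →ₗ[ℂ] ℂ := by
  subst h
  exact ω i

/-- the vector `v` on the positions `≠ a, b`, completed by `x` at `a`, `y` at `b` -/
def ext {S : Type} [DecidableEq S] {s : S → ι} (a b : S)
    (v : ∀ z : {z : S // z ≠ a ∧ z ≠ b}, V (s z.1)) (x : V (s a)) (y : V (s b)) :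
    ∀ z, V (s z) :=
  update (update (fun z => if h : z ≠ a ∧ z ≠ b then v ⟨z, h⟩ else 0) a x) b y

/-- the index set of the standard basis vectors of a position -/
abbrev Bx (g : ι → ℕ) {S : Type} (s : S → ι) : Type := ∀ x : S, Bool × Fin (g (s x))

/-- the standard basis vectors -/
def bv (e f : ∀ i, ℕ → V i) {g : ι → ℕ} {S : Type} {s : S → ι} (σ : Bx g s) : ∀ x, V (s x) :=
  fun x => if (σ x).1 then e (s x) (σ x).2 else f (s x) (σ x).2

/-- the standard hermitian form on the multilinear maps; `B` is a basis of `U` -/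
noncomputable def hf [FiniteDimensional ℂ U] {n : ℕ} (B : Basis (Fin n) ℂ U) (e f : ∀ i, ℕ → V i)
    (g : ι → ℕ) {S : Type} [Fintype S] [DecidableEq S] (s : S → ι)
    (h h' : MultilinearMap ℂ (fun x : S => V (s x)) U) : ℂ :=
  ∑ σ : Bx g s, ∑ k, B.repr (h (bv e f σ)) k * (starRingEnd ℂ) (B.repr (h' (bv e f σ)) k)

end Pool.Agent.J4.H71.ST
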