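import Pool.Agent.J4.H71.ST.Defs

/-!
# The Lie algebra: definitions
-/

set_option autoImplicit false

namespace Pool.Agent.J4.H71.ST

open Module Finset Function
open Pool.Agent.J4.H54.TE (FRep GG ext0 mem_gen brk GG_brk cnj GG_cnj cnj_apply lin_der bil_der
  exists_GG ext0_ne)

variable {Γ : Type} [Group Γ] {ι : Type} {V : ι → Type} [∀ i, AddCommGroup (V i)]
  [∀ i, Module ℂ (V i)] [∀ i, FiniteDimensional ℂ (V i)] {U : Type} [AddCommGroup U] [Module ℂ U]
  [FiniteDimensional ℂ U]

/-- the members of the family -/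
inductive Ix (ι : Type)
  | t (i : ι)
  | u (j : ℤ)
  | c (j : ℤ)

/-- a representation -/
noncomputable def vRep {W : Type} [AddCommGroup W] [Module ℂ W] [FiniteDimensional ℂ W]
    (r : Γ →* Module.End ℂ W) : FRep ℂ Γ where
  V := W
  ρ := r

/-- the twists of `U` -/
noncomputable def uRep (χ : Γ →* ℂˣ) (τ : Γ →* Module.End ℂ U) (j : ℤ) : FRep ℂ Γ where
  V := U
  ρ :=
    { toFun := fun g => ((χ g : ℂ) ^ j) • τ g
      map_one' := by
        rw [map_one, map_one, Units.val_one, one_zpow, one_smul]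
      map_mul' := by
        intro g g'
        rw [map_mul, map_mul, Units.val_mul, mul_zpow]
        apply LinearMap.ext
        intro x
        change (((χ g : ℂ) ^ j) * ((χ g' : ℂ) ^ j)) • (τ g) ((τ g') x) =
          ((χ g : ℂ) ^ j) • (τ g) (((χ g' : ℂ) ^ j) • (τ g') x)
        rw [map_smul, smul_smul] }

/-- the powers of `χ` -/
noncomputable def cRep (χ : Γ →* ℂˣ) (j : ℤ) : FRep ℂ Γ where
  V := ℂ
  ρ :=
    { toFun := fun g => ((χ g : ℂ) ^ j) • LinearMap.id
      map_one' := by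
        rw [map_one, Units.val_one, one_zpow, one_smul]
        rfl
      map_mul' := by
        intro g g'
        rw [map_mul, Units.val_mul, mul_zpow]
        apply LinearMap.ext
        intro x
        change (((χ g : ℂ) ^ j) * ((χ g' : ℂ) ^ j)) • x =
          ((χ g : ℂ) ^ j) • ((χ g' : ℂ) ^ j) • x
        rw [smul_smul] }

/-- the family -/
noncomputable def fam (χ : Γ →* ℂˣ) (ρ : ∀ i, Γ →* Module.End ℂ (V i))
    (τ : Γ →* Module.End ℂ U) : Ix ι → FRep ℂ Γ
  | .t i => vRep (ρ i)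
  | .u j => uRep χ τ j
  | .c j => cRep χ j

/-- The operators `X i` on the `V i` and `Y` on `U` form an element of the Lie algebra which is
zero on the powers of `χ`. -/
def LL (χ : Γ →* ℂˣ) (ρ : ∀ i, Γ →* Module.End ℂ (V i)) (τ : Γ →* Module.End ℂ U)
    (X : ∀ i, Module.End ℂ (V i)) (Y : Module.End ℂ U) : Prop :=
  ∃ D ∈ GG (fam χ ρ τ), (∀ j x, D (.c j) x = 0) ∧ (∀ i (v : V i), D (.t i) v = X i v) ∧
    ∀ j (x : U), D (.u j) x = Y x

end Pool.Agent.J4.H71.ST
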