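import Pool.Agent.J4.H71.ST.Defs
import Pool.Agent.J4.H21.OP.Pos

/-!
# Patterns

A traceless class which does not vanish has a nonzero value at a family of vectors `e (s x) (p x)`.
-/

set_option autoImplicit false

namespace Pool.Agent.J4.H71.ST

open Module Finset Function

namespace Flip

section one

variable {W : Type} [AddCommGroup W] [Module ℂ W] {ω : W →ₗ[ℂ] W →ₗ[ℂ] ℂ} {g : ℕ} {e f : ℕ → W}

theorem skew (hd : Dbx ω g e f) (x y : W) : ω x y = -ω y x := by
  have h1 : ω y x = ∑ p ∈ range g, (ω x (f p) * ω y (e p) - ω x (e p) * ω y (f p)) := by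
    conv_lhs => rw [hd.span x]
    rw [map_sum]
    refine Finset.sum_congr rfl fun p _ => ?_
    rw [map_sub, map_smul, map_smul, smul_eq_mul, smul_eq_mul]
  have h2 : ω x y = ∑ p ∈ range g, (ω y (f p) * ω x (e p) - ω y (e p) * ω x (f p)) := by
    conv_lhs => rw [hd.span y]
    rw [map_sum]
    refine Finset.sum_congr rfl fun p _ => ?_
    rw [map_sub, map_smul, map_smul, smul_eq_mul, smul_eq_mul]
  rw [h1, h2, ← Finset.sum_neg_distrib]
  refine Finset.sum_congr rfl fun p _ => ?_
  ring

/-- the operator `y ↦ ω(b, y) a + ω(a, y) b` -/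
noncomputable def op (ω : W →ₗ[ℂ] W →ₗ[ℂ] ℂ) (a b : W) : Module.End ℂ W :=
  (ω b).smulRight a + (ω a).smulRight b

theorem op_apply (a b y : W) : op ω a b y = ω b y • a + ω a y • b := rfl

theorem op_mem (hd : Dbx ω g e f) (a b : W) : op ω a b ∈ sp ω := by
  intro x y
  rw [op_apply, op_apply, map_add, map_smul, map_smul, map_add, map_smul, map_smul,
    LinearMap.add_apply, LinearMap.smul_apply, LinearMap.smul_apply]
  simp only [smul_eq_mul]
  rw [skew hd x a, skew hd x b]
  ring

theorem op_e (hd : Dbx ω g e f) {p q r : ℕ} (hp : p < g) (hq : q < g) (hr : r < g) :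
    op ω (f p) (f q) (e r) = -((if r = q then f p else 0) + if r = p then f q else 0) := by
  rw [op_apply, skew hd (f q) (e r), skew hd (f p) (e r), hd.ef r q hr hq, hd.ef r p hr hp]
  split_ifs <;> simp [add_comm]

theorem op_f (hd : Dbx ω g e f) (p q r : ℕ) : op ω (f p) (f q) (f r) = 0 := by
  rw [op_apply, hd.ff, hd.ff, zero_smul, zero_smul, add_zero]

end one

variable {ι : Type} {V : ι → Type} [∀ i, AddCommGroup (V i)] [∀ i, Module ℂ (V i)] {U : Type}
  [AddCommGroup U] [Module ℂ U] {ω : ∀ i, V i →ₗ[ℂ] V i →ₗ[ℂ] ℂ}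

/-- the family of the vectors `f (s x) (p x)`, `x ∈ N`, and `e (s x) (p x)`, `x ∉ N` -/
def pat {S : Type} [DecidableEq S] (s : S → ι) (e f : ∀ i, ℕ → V i) (N : Finset S) (p : S → ℕ) :
    ∀ x, V (s x) :=
  fun x => if x ∈ N then f (s x) (p x) else e (s x) (p x)

theorem zero_of_pat {S : Type} [Fintype S] [DecidableEq S] {s : S → ι} {g : ι → ℕ}
    {e f : ∀ i, ℕ → V i} (hd : ∀ x : S, Dbx (ω (s x)) (g (s x)) (e (s x)) (f (s x)))
    {h : MultilinearMap ℂ (fun x : S => V (s x)) U}
    (h0 : ∀ N p, h (pat s e f N p) = 0) : h = 0 := by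
  classical
  have key : ∀ (T : Finset S) (v : ∀ x, V (s x)),
      (∀ x, x ∉ T → ∃ n, v x = e (s x) n ∨ v x = f (s x) n) → h v = 0 := by
    intro T
    induction T using Finset.induction_on with
    | empty =>
      intro v hv
      choose n hn using fun x => hv x (Finset.notMem_empty x)
      have hv' : v = pat s e f (univ.filter fun x => v x ≠ e (s x) (n x)) n := by
        funext x
        rw [pat]
        by_cases hx : v x = e (s x) (n x)
        · rw [if_neg (by simp [hx]), hx]
        · rw [if_pos (by simp [hx])]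
          exact (hn x).resolve_left hx
      rw [hv']
      exact h0 _ _
    | insert a T ha ih =>
      intro v hv
      have h1 : ∀ w : V (s a), (∃ n, w = e (s a) n ∨ w = f (s a) n) → h (update v a w) = 0 := by
        intro w hw
        refine ih _ fun x hx => ?_
        by_cases hxa : x = a
        · subst hxa
          rw [update_self]
          exact hw
        · rw [update_of_ne hxa]
          exact hv x (by simp [hxa, hx])
      have h2 : h v = h.toLinearMap v a (v a) := by
        rw [MultilinearMap.toLinearMap_apply, update_eq_self]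
      rw [h2, (hd a).span (v a), map_sum]
      refine Finset.sum_eq_zero fun p _ => ?_
      rw [map_sub, map_smul, map_smul, MultilinearMap.toLinearMap_apply,
        MultilinearMap.toLinearMap_apply, h1 _ ⟨p, Or.inl rfl⟩, h1 _ ⟨p, Or.inr rfl⟩, smul_zero,
        smul_zero, sub_zero]
  ext v
  exact key univ v fun x hx => absurd (Finset.mem_univ x) hx

theorem step {S : Type} [Fintype S] [DecidableEq S] {s : S → ι} {g : ι → ℕ}
    {e f : ∀ i, ℕ → V i} (hd : ∀ x : S, Dbx (ω (s x)) (g (s x)) (e (s x)) (f (s x)))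
    {h : MultilinearMap ℂ (fun x : S => V (s x)) U} (htr : Traceless g e f s h)
    {a : S} (hact : ∀ A ∈ sp (ω (s a)), ∃ (X : ∀ i, Module.End ℂ (V i)) (Y : Module.End ℂ U),
      X (s a) = A ∧ (∀ x, s x ≠ s a → X (s x) = 0) ∧
        ∀ v : ∀ x, V (s x), ∑ x, h (update v x (X (s x) (v x))) = Y (h v))
    {N : Finset S} (haN : a ∉ N) (h0 : ∀ p, h (pat s e f N p) = 0) (p : S → ℕ) :
    h (pat s e f (insert a N) p) = 0 := by
  classical
  by_cases hp : ∀ x, p x < g (s x)
  swap
  · push Not at hp
    obtain ⟨x, hx⟩ := hp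
    refine h.map_coord_zero x ?_
    rw [pat, (hd x).e0 _ hx, (hd x).f0 _ hx, ite_self]
  set G := g (s a) with hG
  let β := {c : S // s c = s a ∧ c ∉ N}
  have hgc : ∀ c : β, g (s c.1) = G := fun c => by rw [c.2.1]
  -- the vectors
  let vb : (β → Fin G) → ∀ x, V (s x) := fun τ x =>
    if hx : s x = s a ∧ x ∉ N then e (s x) (τ ⟨x, hx⟩) else pat s e f N p x
  let w : β → ℕ → (β → Fin G) → ∀ x, V (s x) := fun c q τ => update (vb τ) c.1 (f (s c.1) q)
  have hvb : ∀ τ (c : β), vb τ c.1 = e (s c.1) (τ c) := fun τ c => dif_pos c.2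
  have hvb' : ∀ τ x, ¬(s x = s a ∧ x ∉ N) → vb τ x = pat s e f N p x := fun τ x hx => dif_neg hx
  have hup : ∀ τ (c : β) (r : Fin G), vb (update τ c r) = update (vb τ) c.1 (e (s c.1) r) := by
    intro τ c r
    funext x
    by_cases hxc : x = c.1
    · subst hxc
      rw [update_self, hvb, update_self]
    · rw [update_of_ne hxc]
      by_cases hx : s x = s a ∧ x ∉ N
      · have h1 := hvb (update τ c r) ⟨x, hx⟩
        have h2 := hvb τ ⟨x, hx⟩
        rw [update_of_ne (fun h' => hxc (congrArg Subtype.val h'))] at h1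
        exact h1.trans h2.symm
      · rw [hvb' _ x hx, hvb' _ x hx]
  have hz : ∀ τ, h (vb τ) = 0 := by
    intro τ
    have h1 : vb τ = pat s e f N (fun x => if hx : s x = s a ∧ x ∉ N then (τ ⟨x, hx⟩ : ℕ) else p x) := by
      funext x
      by_cases hx : s x = s a ∧ x ∉ N
      · rw [show vb τ x = _ from hvb τ ⟨x, hx⟩, pat, if_neg hx.2, dif_pos hx]
      · rw [hvb' τ x hx, pat, pat, dif_neg hx]
    rw [h1]
    exact h0 _
  have main : ∀ (l : U →ₗ[ℂ] ℂ) (c : β) (q : Fin G) (τ : β → Fin G), l (h (w c q τ)) = 0 := by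
    intro l
    refine Pool.Agent.J4.H21.OP.pos_zero (β := β) (g := G) (fun c q τ => l (h (w c q τ))) ?_ ?_ ?_
    · intro c q τ r
      show l (h (update (vb (update τ c r)) c.1 (f (s c.1) q))) = l (h (update (vb τ) c.1 (f (s c.1) q)))
      rw [hup, update_idem]
    · intro p' q' τ
      obtain ⟨X, Y, hX, hX0, hXY⟩ := hact (op (ω (s a)) (f (s a) p') (f (s a) q')) (op_mem (hd a) _ _)
      have h1 := hXY (vb τ)
      rw [hz, map_zero] at h1
      have h2 : ∀ i, i = s a → ∀ n, X i (f i n) = 0 := by
        intro i hi n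
        subst hi
        rw [hX]
        exact op_f (hd a) _ _ _
      have h3 : ∀ i, i = s a → ∀ n < G, X i (e i n) =
          -((if n = q' then f i p' else 0) + if n = p' then f i q' else 0) := by
        intro i hi n hn
        subst hi
        rw [hX]
        exact op_e (hd a) p'.2 q'.2 hn
      have h4 : ∑ x, h (update (vb τ) x (X (s x) (vb τ x))) =
          ∑ c : β, h (update (vb τ) c.1 (X (s c.1) (vb τ c.1))) := by
        rw [← Finset.sum_subtype (univ.filter fun x => s x = s a ∧ x ∉ N) (by simp)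
          (fun x => h (update (vb τ) x (X (s x) (vb τ x))))]
        refine (Finset.sum_subset (Finset.filter_subset _ _) fun x _ hx => ?_).symm
        have hx' : ¬(s x = s a ∧ x ∉ N) := by simpa using hx
        have h5 : X (s x) (vb τ x) = 0 := by
          by_cases hxa : s x = s a
          · have hxN : x ∈ N := by
              by_contra hxN
              exact hx' ⟨hxa, hxN⟩
            rw [hvb' τ x hx', pat, if_pos hxN]
            exact h2 _ hxa _
          · rw [hX0 x hxa, LinearMap.zero_apply]
        rw [h5]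
        exact h.map_update_zero _ _
      rw [h4] at h1
      have h6 : ∀ c : β, h (update (vb τ) c.1 (X (s c.1) (vb τ c.1))) =
          -((if τ c = p' then h (w c q' τ) else 0) + if τ c = q' then h (w c p' τ) else 0) := by
        intro c
        rw [hvb, h3 _ c.2.1 _ (τ c).2]
        have h7 : ∀ z, h (update (vb τ) c.1 z) = h.toLinearMap (vb τ) c.1 z := fun z => rfl
        rw [h7, map_neg, map_add]
        simp only [Fin.ext_iff]
        have h8 : ∀ (P : Prop) [Decidable P] (z : V (s c.1)),
            h.toLinearMap (vb τ) c.1 (if P then z else 0) =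
              if P then h (update (vb τ) c.1 z) else 0 := by
          intro P _ z
          split_ifs
          · rfl
          · exact map_zero _
        rw [h8, h8, add_comm]
      have h9 : ∑ c : β, ((if τ c = p' then h (w c q' τ) else 0) +
          if τ c = q' then h (w c p' τ) else 0) = 0 := by
        rw [← neg_eq_zero, ← Finset.sum_neg_distrib]
        exact (Finset.sum_congr rfl fun c _ => (h6 c).symm).trans h1
      have h10 := congrArg l h9
      rw [map_zero, map_sum] at h10
      refine Eq.trans (Finset.sum_congr rfl fun c _ => ?_) h10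
      rw [map_add]
      congr 1
      · split_ifs
        · rfl
        · rw [map_zero]
      · split_ifs
        · rfl
        · rw [map_zero]
    · intro b c hbc τ
      have hbc' : c.1 ≠ b.1 := fun h' => hbc (Subtype.ext h'.symm)
      have h1 := htr c.1 b.1 hbc' (c.2.1.trans b.2.1.symm) (vb τ)
      rw [hgc c, Finset.sum_range, Finset.sum_range] at h1
      have h2 := congrArg l h1
      rw [map_sum, map_sum] at h2
      have h3 : ∀ r : Fin G, w b r (update τ c r) =
          update (update (vb τ) c.1 (e (s c.1) r)) b.1 (f (s b.1) r) := by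
        intro r
        show update (vb (update τ c r)) b.1 (f (s b.1) r) = _
        rw [hup]
      have h4 : ∀ r : Fin G, w c r (update τ b r) =
          update (update (vb τ) c.1 (f (s c.1) r)) b.1 (e (s b.1) r) := by
        intro r
        show update (vb (update τ b r)) c.1 (f (s c.1) r) = _
        rw [hup, update_comm hbc']
      simp only [h3, h4]
      exact h2
  -- the conclusion
  rw [← Module.forall_dual_apply_eq_zero_iff ℂ]
  intro l
  let τ₀ : β → Fin G := fun c => ⟨p c.1, by rw [← hgc c]; exact hp c.1⟩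
  have h1 : l (h (update (vb τ₀) a (f (s a) (p a)))) = 0 := main l ⟨a, rfl, haN⟩ ⟨p a, hp a⟩ τ₀
  have h2 : pat s e f (insert a N) p = update (vb τ₀) a (f (s a) (p a)) := by
    funext x
    by_cases hxa : x = a
    · subst hxa
      rw [update_self, pat, if_pos (Finset.mem_insert_self _ _)]
    · rw [update_of_ne hxa]
      by_cases hx : s x = s a ∧ x ∉ N
      · rw [show vb τ₀ x = _ from hvb τ₀ ⟨x, hx⟩, pat, if_neg (by simp [hxa, hx.2])]
      · rw [hvb' _ x hx, pat, pat]
        simp [Finset.mem_insert, hxa]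
  rw [h2]
  exact h1

end Flip

variable {ι : Type} {V : ι → Type} [∀ i, AddCommGroup (V i)] [∀ i, Module ℂ (V i)] {U : Type}
  [AddCommGroup U] [Module ℂ U] {ω : ∀ i, V i →ₗ[ℂ] V i →ₗ[ℂ] ℂ}

theorem pattern {S : Type} [Fintype S] [DecidableEq S] {s : S → ι} {g : ι → ℕ}
    {e f : ∀ i, ℕ → V i} (hd : ∀ x : S, Dbx (ω (s x)) (g (s x)) (e (s x)) (f (s x)))
    {h : MultilinearMap ℂ (fun x : S => V (s x)) U} (htr : Traceless g e f s h)
    (hact : ∀ a : S, ∀ A ∈ sp (ω (s a)), ∃ (X : ∀ i, Module.End ℂ (V i)) (Y : Module.End ℂ U),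
      X (s a) = A ∧ (∀ x, s x ≠ s a → X (s x) = 0) ∧
        ∀ v : ∀ x, V (s x), ∑ x, h (update v x (X (s x) (v x))) = Y (h v))
    (hne : h ≠ 0) : ∃ p : S → ℕ, (∀ x, p x < g (s x)) ∧ h (fun x => e (s x) (p x)) ≠ 0 := by
  by_contra hcon
  push Not at hcon
  refine hne (Flip.zero_of_pat hd fun N => ?_)
  induction N using Finset.induction_on with
  | empty =>
    intro p
    have h1 : Flip.pat s e f ∅ p = fun x => e (s x) (p x) := by
      funext x
      rw [Flip.pat, if_neg (Finset.notMem_empty x)]
    rw [h1]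
    by_cases hp : ∀ x, p x < g (s x)
    · exact hcon p hp
    · push Not at hp
      obtain ⟨x, hx⟩ := hp
      exact h.map_coord_zero x ((hd x).e0 _ hx)
  | insert a N haN ih => exact Flip.step hd htr (hact a) haN ih

end Pool.Agent.J4.H71.ST
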