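import Pool.Agent.J4.H71.ST.Defs

/-!
# A Darboux basis from a semisimple operator
-/

set_option autoImplicit false

namespace Pool.Agent.J4.H71.ST

open Module Finset Function

namespace Half

section

variable {W : Type} [AddCommGroup W] [Module ℂ W]

lemma anti {ω : W →ₗ[ℂ] W →ₗ[ℂ] ℂ} (al : ∀ x, ω x x = 0) (x y : W) : ω x y = -ω y x := by
  have h := al (x + y)
  simp only [map_add, LinearMap.add_apply, al, zero_add, add_zero] at h
  linear_combination h

/-- eigenvectors with eigenvalue `t`, `c t ≥ 1` -/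
def EE (J : Module.End ℂ W) (c : ℝ) : Set W := {x | ∃ t : ℝ, 1 ≤ c * t ∧ J x = (t : ℂ) • x}

lemma iso_EE {ω : W →ₗ[ℂ] W →ₗ[ℂ] ℂ} {J : Module.End ℂ W} (hJ : J ∈ sp ω) {c : ℝ} {x y : W}
    (hx : x ∈ EE J c) (hy : y ∈ EE J c) : ω x y = 0 := by
  obtain ⟨t, ht, hx⟩ := hx
  obtain ⟨u, hu, hy⟩ := hy
  have h := hJ x y
  rw [hx, hy, map_smul, map_smul, LinearMap.smul_apply, smul_eq_mul, smul_eq_mul] at h
  have h1 : ((t + u : ℝ) : ℂ) * ω x y = 0 := by
    push_cast
    linear_combination h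
  rcases mul_eq_zero.1 h1 with h2 | h2
  · have h3 : t + u = 0 := by exact_mod_cast h2
    have h4 : c * (t + u) = 0 := by rw [h3, mul_zero]
    nlinarith
  · exact h2

lemma iso_span {ω : W →ₗ[ℂ] W →ₗ[ℂ] ℂ} {J : Module.End ℂ W} (hJ : J ∈ sp ω) {c : ℝ} {x y : W}
    (hx : x ∈ Submodule.span ℂ (EE J c)) (hy : y ∈ Submodule.span ℂ (EE J c)) : ω x y = 0 := by
  induction hx using Submodule.span_induction with
  | mem x hx =>
    induction hy using Submodule.span_induction with
    | mem y hy => exact iso_EE hJ hx hy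
    | zero => simp
    | add y y' _ _ h h' => rw [map_add, h, h', add_zero]
    | smul a y _ h => rw [map_smul, h, smul_zero]
  | zero => simp
  | add x x' _ _ h h' => rw [map_add, LinearMap.add_apply, h, h', add_zero]
  | smul a x _ h => rw [map_smul, LinearMap.smul_apply, h, smul_zero]

lemma sup_EE {J : Module.End ℂ W} (hd : ⨆ μ : ℂ, J.eigenspace μ = ⊤)
    (hr : ∀ μ : ℂ, J.HasEigenvalue μ → ∃ t : ℝ, μ = t ∧ 1 ≤ |t|) :
    Submodule.span ℂ (EE J 1) ⊔ Submodule.span ℂ (EE J (-1)) = ⊤ := by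
  rw [eq_top_iff, ← hd]
  refine iSup_le fun μ => ?_
  by_cases h : J.HasEigenvalue μ
  · obtain ⟨t, rfl, ht⟩ := hr μ h
    intro x hx
    rw [Module.End.mem_eigenspace_iff] at hx
    rcases le_abs.1 ht with h1 | h1
    · exact Submodule.mem_sup_left (Submodule.subset_span ⟨t, by linarith, hx⟩)
    · exact Submodule.mem_sup_right (Submodule.subset_span ⟨t, by linarith, hx⟩)
  · have h1 : J.eigenspace μ = ⊥ := by
      by_contra h2
      exact h h2
    rw [h1]
    exact bot_le

variable [FiniteDimensional ℂ W]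

lemma exists_rep {ω : W →ₗ[ℂ] W →ₗ[ℂ] ℂ} (al : ∀ x, ω x x = 0)
    (nd : ∀ x, (∀ y, ω x y = 0) → x = 0) (φ : W →ₗ[ℂ] ℂ) : ∃ y, ∀ x, ω x y = φ x := by
  have hinj : Function.Injective (ω.flip : W →ₗ[ℂ] Module.Dual ℂ W) := by
    rw [injective_iff_map_eq_zero]
    intro y hy
    apply nd
    intro x
    rw [anti al, ← LinearMap.flip_apply, hy]
    simp
  have hsurj : Function.Surjective (ω.flip : W →ₗ[ℂ] Module.Dual ℂ W) :=
    (LinearMap.injective_iff_surjective_of_finrank_eq_finrank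
      (Subspace.dual_finrank_eq (K := ℂ) (V := W)).symm).1 hinj
  obtain ⟨y, hy⟩ := hsurj φ
  exact ⟨y, fun x => by rw [← hy]; rfl⟩

end

end Half

open Half in
theorem exists_dbx {W : Type} [AddCommGroup W] [Module ℂ W] [FiniteDimensional ℂ W]
    {ω : W →ₗ[ℂ] W →ₗ[ℂ] ℂ} (al : ∀ x, ω x x = 0) (nd : ∀ x, (∀ y, ω x y = 0) → x = 0)
    {J : Module.End ℂ W} (hJ : J ∈ sp ω) (hd : ⨆ μ : ℂ, J.eigenspace μ = ⊤)
    (hr : ∀ μ : ℂ, J.HasEigenvalue μ → ∃ t : ℝ, μ = t ∧ 1 ≤ |t|) :
    ∃ (g : ℕ) (e f : ℕ → W), Dbx ω g e f ∧ ∀ p < g, ∃ t : ℝ, 1 ≤ t ∧ J (e p) = (t : ℂ) • e p := by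
  classical
  obtain ⟨b, hbE, hbs, hbl⟩ := exists_linearIndependent ℂ (EE J 1)
  have hbf : b.Finite := hbl.setFinite
  have : Fintype b := hbf.fintype
  set g := Fintype.card b with hg
  let eq : Fin g ≃ b := (Fintype.equivFin b).symm
  let e' : Fin g → W := fun i => (eq i : W)
  have hel : LinearIndependent ℂ e' := hbl.comp eq eq.injective
  have her : Set.range e' = b := by
    ext x
    constructor
    · rintro ⟨i, rfl⟩; exact (eq i).2
    · intro hx; exact ⟨eq.symm ⟨x, hx⟩, by simp [e']⟩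
  set P := Submodule.span ℂ (EE J 1) with hP
  set M := Submodule.span ℂ (EE J (-1)) with hM
  have hPM : P ⊔ M = ⊤ := sup_EE hd hr
  have hes : Submodule.span ℂ (Set.range e') = P := by rw [her, hbs]
  have heP : ∀ i, e' i ∈ P := fun i => by
    rw [← hes]; exact Submodule.subset_span ⟨i, rfl⟩
  have hisoP : ∀ x ∈ P, ∀ y ∈ P, ω x y = 0 := fun x hx y hy => iso_span hJ hx hy
  have hisoM : ∀ x ∈ M, ∀ y ∈ M, ω x y = 0 := fun x hx y hy => iso_span hJ hx hy
  -- dual vectors
  have hdual : ∀ i : Fin g, ∃ y ∈ M, ∀ j, ω (e' j) y = if j = i then 1 else 0 := by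
    intro i
    obtain ⟨φ, hφ⟩ := LinearMap.exists_extend ((Basis.span hel).coord i)
    have h1 : ∀ j, φ (e' j) = if j = i then 1 else 0 := by
      intro j
      have h2 := LinearMap.congr_fun hφ (Basis.span hel j)
      have h5 : (Basis.span hel).coord i (Basis.span hel j) = if j = i then 1 else 0 := by
        rw [Basis.coord_apply, Basis.repr_self, Finsupp.single_apply]
      rw [h5, LinearMap.comp_apply, Submodule.subtype_apply, Basis.span_apply] at h2
      exact h2
    obtain ⟨y, hy⟩ := exists_rep al nd φ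
    have h3 : y ∈ P ⊔ M := by rw [hPM]; trivial
    obtain ⟨a, ha, m, hm, rfl⟩ := Submodule.mem_sup.1 h3
    refine ⟨m, hm, fun j => ?_⟩
    have h4 := hy (e' j)
    rw [map_add, hisoP _ (heP j) _ ha, zero_add, h1] at h4
    exact h4
  choose f' hfM hf' using hdual
  let e : ℕ → W := fun p => if h : p < g then e' ⟨p, h⟩ else 0
  let f : ℕ → W := fun p => if h : p < g then f' ⟨p, h⟩ else 0
  have hee : ∀ i : Fin g, e i = e' i := fun i => by simp [e]
  have hff : ∀ i : Fin g, f i = f' i := fun i => by simp [f]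
  have heP' : ∀ p, e p ∈ P := by
    intro p
    by_cases h : p < g
    · simp only [e, h, dif_pos]; exact heP _
    · simp only [e, h, dif_neg, not_false_eq_true]; exact P.zero_mem
  have hfM' : ∀ p, f p ∈ M := by
    intro p
    by_cases h : p < g
    · simp only [f, h, dif_pos]; exact hfM _
    · simp only [f, h, dif_neg, not_false_eq_true]; exact M.zero_mem
  -- the expansion
  have hzero : ∀ x ∈ M, (∀ i, ω x (e' i) = 0) → x = 0 := by
    intro x hx h
    apply nd
    intro y
    have h1 : y ∈ P ⊔ M := by rw [hPM]; trivial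
    obtain ⟨a, ha, m, hm, rfl⟩ := Submodule.mem_sup.1 h1
    rw [map_add, hisoM x hx m hm, add_zero]
    clear h1
    rw [← hes] at ha
    induction ha using Submodule.span_induction with
    | mem z hz => obtain ⟨i, rfl⟩ := hz; exact h i
    | zero => simp
    | add z z' _ _ h h' => rw [map_add, h, h', add_zero]
    | smul c z _ h => rw [map_smul, h, smul_zero]
  have hspanP : ∀ x ∈ P, x = ∑ i : Fin g, (ω x (f' i) • e' i - ω x (e' i) • f' i) := by
    intro x hx
    rw [← hes] at hx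
    obtain ⟨c, rfl⟩ := (Submodule.mem_span_range_iff_exists_fun ℂ).1 hx
    refine Finset.sum_congr rfl fun i _ => ?_
    rw [map_sum, LinearMap.sum_apply, LinearMap.sum_apply]
    have h1 : ∑ j, ω (c j • e' j) (f' i) = c i := by
      rw [Finset.sum_eq_single i]
      · rw [map_smul, LinearMap.smul_apply, hf' i i, if_pos rfl, smul_eq_mul, mul_one]
      · intro j _ hj
        rw [map_smul, LinearMap.smul_apply, hf' i j, if_neg hj, smul_zero]
      · intro h; exact absurd (mem_univ _) h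
    have h2 : ∑ j, ω (c j • e' j) (e' i) = 0 := by
      refine Finset.sum_eq_zero fun j _ => ?_
      rw [map_smul, LinearMap.smul_apply, hisoP _ (heP j) _ (heP i), smul_zero]
    rw [h1, h2, zero_smul, sub_zero]
  have hspanM : ∀ x ∈ M, x = ∑ i : Fin g, (ω x (f' i) • e' i - ω x (e' i) • f' i) := by
    intro x hx
    have h0 : ∑ i : Fin g, (ω x (f' i) • e' i - ω x (e' i) • f' i) =
        -∑ i : Fin g, ω x (e' i) • f' i := by
      rw [← Finset.sum_neg_distrib]
      refine Finset.sum_congr rfl fun i _ => ?_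
      rw [hisoM x hx _ (hfM i), zero_smul, zero_sub]
    rw [h0, ← sub_eq_zero]
    apply hzero
    · exact M.sub_mem hx (M.neg_mem (M.sum_mem fun i _ => M.smul_mem _ (hfM i)))
    · intro i
      rw [sub_neg_eq_add, map_add, LinearMap.add_apply, map_sum, LinearMap.sum_apply,
        Finset.sum_eq_single i]
      · rw [map_smul, LinearMap.smul_apply, anti al (f' i), hf' i i, if_pos rfl, smul_eq_mul]
        ring
      · intro j _ hj
        rw [map_smul, LinearMap.smul_apply, anti al (f' j), hf' j i, if_neg (Ne.symm hj)]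
        simp
      · intro h; exact absurd (mem_univ _) h
  refine ⟨g, e, f, ⟨?_, ?_, ?_, ?_, ?_, ?_⟩, ?_⟩
  · intro p hp
    simp only [e, not_lt.2 hp, dif_neg, not_false_eq_true]
  · intro p hp
    simp only [f, not_lt.2 hp, dif_neg, not_false_eq_true]
  · intro p q hp hq
    have h1 := hf' ⟨q, hq⟩ ⟨p, hp⟩
    simp only [Fin.mk.injEq] at h1
    simp only [e, f, hp, hq, dif_pos]
    exact h1
  · intro p q; exact hisoP _ (heP' p) _ (heP' q)
  · intro p q; exact hisoM _ (hfM' p) _ (hfM' q)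
  · intro x
    rw [Finset.sum_range]
    simp only [hee, hff]
    have h1 : x ∈ P ⊔ M := by rw [hPM]; trivial
    obtain ⟨a, ha, m, hm, rfl⟩ := Submodule.mem_sup.1 h1
    have h2 := hspanP a ha
    have h3 := hspanM m hm
    have h4 : ∑ i : Fin g, (ω (a + m) (f' i) • e' i - ω (a + m) (e' i) • f' i) =
        ∑ i : Fin g, (ω a (f' i) • e' i - ω a (e' i) • f' i) +
          ∑ i : Fin g, (ω m (f' i) • e' i - ω m (e' i) • f' i) := by
      rw [← Finset.sum_add_distrib]
      refine Finset.sum_congr rfl fun i _ => ?_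
      rw [map_add, LinearMap.add_apply, LinearMap.add_apply, add_smul, add_smul]
      abel
    rw [h4, ← h2, ← h3]
  · intro p hp
    have h1 : e p = e' ⟨p, hp⟩ := by simp only [e, hp, dif_pos]
    obtain ⟨t, ht, h2⟩ := hbE (eq ⟨p, hp⟩).2
    exact ⟨t, by linarith, by rw [h1]; exact h2⟩

end Pool.Agent.J4.H71.ST
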