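import Pool.Agent.J4.H71.ST.Defs
import Pool.Agent.J4.H21.OP.E1
import Pool.Agent.J4.H54.TE.Gou2

/-!
# The graph of an isomorphism of the symplectic Lie algebras gives a relation
-/

set_option autoImplicit false

namespace Pool.Agent.J4.H71.ST

open Module Finset Function
open Pool.Agent.J4.H21.OP (Rk Rk_apply Rk_skew om_swap om_one exists_equiv)

namespace Rel

variable {W : Type} [AddCommGroup W] [Module ℂ W] {ω : W →ₗ[ℂ] W →ₗ[ℂ] ℂ}

theorem Rk_mem (al : ∀ x, ω x x = 0) (a b : W) : Rk ω a b ∈ sp ω := fun x y => Rk_skew al a b x y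

/-- an operator which commutes with the symplectic Lie algebra is a scalar -/
theorem scalar_of_comm (al : ∀ x, ω x x = 0) (nd : ∀ x, (∀ y, ω x y = 0) → x = 0)
    (ne : ∃ x : W, x ≠ 0) {E : W → W} (hE : ∀ a b v, E (Rk ω a b v) = Rk ω a b (E v))
    (hadd : ∀ x y, E (x + y) = E x + E y) (hsm : ∀ (c : ℂ) x, E (c • x) = c • E x) :
    ∃ c : ℂ, ∀ x, E x = c • x := by
  obtain ⟨a₀, ha₀⟩ := ne
  obtain ⟨v, hv⟩ := om_one nd ha₀
  have h1 : ∀ a, E a + ω a v • E a₀ = ω a₀ (E v) • a + ω a (E v) • a₀ := by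
    intro a
    have h := hE a a₀ v
    rw [Rk_apply, Rk_apply, hv, hadd, hsm, hsm, one_smul] at h
    exact h
  obtain ⟨c, hc⟩ : ∃ c, c = ω a₀ (E v) := ⟨_, rfl⟩
  rw [← hc] at h1
  have h2 : E a₀ = c • a₀ := by
    have h := h1 a₀
    rw [hv, one_smul, ← hc, ← two_smul ℂ (E a₀), ← two_smul ℂ (c • a₀)] at h
    exact smul_right_injective W (two_ne_zero (α := ℂ)) h
  have h3 : ∀ a, E a = c • a + (ω a (E v) - c * ω a v) • a₀ := by
    intro a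
    have h := h1 a
    rw [h2] at h
    rw [eq_sub_of_add_eq h]
    module
  obtain ⟨l, hl⟩ : ∃ l, l = ω v (E v) - c * ω v v := ⟨_, rfl⟩
  have h4 : E v = c • v + l • a₀ := by rw [h3 v, ← hl]
  have h5 : l = 0 := by
    have h6 : l = -l := by
      conv_lhs => rw [hl, h4]
      rw [map_add, map_smul, map_smul, om_swap al v a₀, hv, al, smul_eq_mul, smul_eq_mul]
      ring
    have h7 : (2 : ℂ) * l = 0 := by linear_combination h6
    exact (mul_eq_zero.1 h7).resolve_left two_ne_zero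
  refine ⟨c, fun a => ?_⟩
  rw [h3 a, h4, h5, map_add, map_smul, zero_smul, map_zero, add_zero, smul_eq_mul, sub_self,
    zero_smul, add_zero]

/-- an invariant form is a multiple of `ω` -/
theorem form_of_inv (al : ∀ x, ω x x = 0) (nd : ∀ x, (∀ y, ω x y = 0) → x = 0)
    (ne : ∃ x : W, x ≠ 0) {β : W →ₗ[ℂ] W →ₗ[ℂ] ℂ} (alb : ∀ x, β x x = 0)
    (hβ : ∀ a b x y, β (Rk ω a b x) y = -β x (Rk ω a b y)) :
    ∃ d : ℂ, ∀ x y, β x y = d * ω x y := by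
  obtain ⟨a₀, ha₀⟩ := ne
  obtain ⟨v, hv⟩ := om_one nd ha₀
  have h1 : ∀ a b x y, ω b x * β a y + ω a x * β b y = ω b y * β a x + ω a y * β b x := by
    intro a b x y
    have h := hβ a b x y
    rw [Rk_apply, Rk_apply, map_add, map_add, LinearMap.add_apply, map_smul, map_smul, map_smul,
      map_smul, LinearMap.smul_apply, LinearMap.smul_apply, smul_eq_mul, smul_eq_mul, smul_eq_mul,
      smul_eq_mul] at h
    rw [h, om_swap alb a x, om_swap alb b x]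
    ring
  have h2 : ∀ a x y, ω a x * β a y = ω a y * β a x := by
    intro a x y
    have h := h1 a a x y
    linear_combination h / 2
  obtain ⟨d, hd⟩ : ∃ d, d = β a₀ v := ⟨_, rfl⟩
  have h3 : ∀ y, β a₀ y = d * ω a₀ y := by
    intro y
    have h := h2 a₀ v y
    rw [hv, ← hd, one_mul] at h
    rw [h, mul_comm]
  have h4 : ∀ y, β v y = d * ω v y := by
    intro y
    have h := h2 v a₀ y
    rw [om_swap al v a₀, hv, om_swap alb v a₀, ← hd] at h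
    linear_combination -h
  have h5 : ∀ a, β a v = d * ω a v := by
    intro a
    rw [om_swap alb a v, h4, om_swap al a v]
    ring
  refine ⟨d, fun a y => ?_⟩
  have h := h1 a a₀ v y
  rw [hv, h3, h5, ← hd] at h
  linear_combination h

end Rel

variable {Γ : Type} [Group Γ]

theorem related_of_graph {W₁ W₂ : Type} [AddCommGroup W₁] [Module ℂ W₁] [FiniteDimensional ℂ W₁]
    [AddCommGroup W₂] [Module ℂ W₂] [FiniteDimensional ℂ W₂] {χ : Γ →* ℂˣ}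
    {r₁ : Γ →* Module.End ℂ W₁} {r₂ : Γ →* Module.End ℂ W₂} {ω₁ : W₁ →ₗ[ℂ] W₁ →ₗ[ℂ] ℂ}
    {ω₂ : W₂ →ₗ[ℂ] W₂ →ₗ[ℂ] ℂ} {w₁ w₂ : ℤ} (h₁ : SymplecticType χ r₁ ω₁ w₁)
    (h₂ : SymplecticType χ r₂ ω₂ w₂) (G : Submodule ℂ (Module.End ℂ W₁ × Module.End ℂ W₂))
    (hbr : ∀ x ∈ G, ∀ y ∈ G, (x.1 * y.1 - y.1 * x.1, x.2 * y.2 - y.2 * x.2) ∈ G)
    (hcj : ∀ g, ∀ x ∈ G, (r₁ g * x.1 * r₁ g⁻¹, r₂ g * x.2 * r₂ g⁻¹) ∈ G)
    (s₁ : ∀ x ∈ G, x.1 ∈ sp ω₁) (s₂ : ∀ x ∈ G, x.2 ∈ sp ω₂)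
    (f₁ : ∀ A ∈ sp ω₁, ∃ B, (A, B) ∈ G) (f₂ : ∀ B ∈ sp ω₂, ∃ A, (A, B) ∈ G)
    (i₁ : ∀ A, (A, (0 : Module.End ℂ W₂)) ∈ G → A = 0)
    (i₂ : ∀ B, ((0 : Module.End ℂ W₁), B) ∈ G → B = 0) : Related χ r₁ r₂ := by
  obtain ⟨ψ, hψ0, hψ⟩ := exists_equiv ω₁ ω₂ h₁.alt h₂.alt h₁.nondeg h₂.nondeg G hbr s₁ s₂
    (fun a b => f₁ _ (Rel.Rk_mem h₁.alt a b)) (fun a b => f₂ _ (Rel.Rk_mem h₂.alt a b)) i₁ i₂ h₁.ne
  -- injective
  have hinj : ∀ y, ψ y = 0 → y = 0 := by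
    intro y hy
    by_contra hy0
    apply hψ0
    obtain ⟨b', hb'⟩ := om_one h₁.nondeg hy0
    obtain ⟨b, hb⟩ : ∃ b, ω₁ b y = 1 := ⟨-b', by rw [om_swap h₁.alt, map_neg, hb', neg_neg]⟩
    have h3 : ∀ a, ψ a + ω₁ a y • ψ b = 0 := by
      intro a
      obtain ⟨B, hB⟩ := f₁ _ (Rel.Rk_mem h₁.alt a b)
      have h4 := hψ _ hB y
      dsimp only at h4
      rw [hy, map_zero, Rk_apply, hb, one_smul, map_add, map_smul] at h4
      exact h4
    have h4 : ψ b = 0 := by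
      have h5 := h3 b
      rw [hb, one_smul, ← two_smul ℂ] at h5
      exact (smul_eq_zero.1 h5).resolve_left two_ne_zero
    refine LinearMap.ext fun a => ?_
    have h5 := h3 a
    rw [h4, smul_zero, add_zero] at h5
    rw [h5, LinearMap.zero_apply]
  have hinj' : Injective ψ := fun x y hxy => by
    have := hinj (x - y) (by rw [map_sub, hxy, sub_self])
    exact sub_eq_zero.1 this
  -- surjective
  have hsur : Surjective ψ := by
    obtain ⟨x₀, hx₀⟩ := h₁.ne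
    have hz : ψ x₀ ≠ 0 := fun h => hx₀ (hinj _ h)
    obtain ⟨b', hb'⟩ := om_one h₂.nondeg hz
    obtain ⟨b, hb⟩ : ∃ b, ω₂ b (ψ x₀) = 1 := ⟨-b', by rw [om_swap h₂.alt, map_neg, hb', neg_neg]⟩
    have h3 : ∀ a, ∃ x, ψ x = a + ω₂ a (ψ x₀) • b := by
      intro a
      obtain ⟨A, hA⟩ := f₂ _ (Rel.Rk_mem h₂.alt a b)
      refine ⟨A x₀, ?_⟩
      have h4 := hψ _ hA x₀
      dsimp only at h4
      rw [h4, Rk_apply, hb, one_smul]
    obtain ⟨y, hy⟩ := h3 b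
    rw [hb, one_smul, ← two_smul ℂ] at hy
    have hy' : ψ ((2 : ℂ)⁻¹ • y) = b := by
      rw [map_smul, hy, smul_smul, inv_mul_cancel₀ two_ne_zero, one_smul]
    intro a
    obtain ⟨x, hx⟩ := h3 a
    refine ⟨x - ω₂ a (ψ x₀) • ((2 : ℂ)⁻¹ • y), ?_⟩
    rw [map_sub, map_smul, hy', hx, add_sub_cancel_right]
  obtain ⟨e, he⟩ : ∃ e : W₁ ≃ₗ[ℂ] W₂, ∀ x, e x = ψ x :=
    ⟨LinearEquiv.ofBijective ψ ⟨hinj', hsur⟩, fun x => rfl⟩
  have hinv1 : ∀ g x, r₁ g⁻¹ (r₁ g x) = x := fun g x => by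
    rw [← Module.End.mul_apply, ← map_mul, inv_mul_cancel, map_one, Module.End.one_apply]
  have hinv2 : ∀ g x, r₂ g⁻¹ (r₂ g x) = x := fun g x => by
    rw [← Module.End.mul_apply, ← map_mul, inv_mul_cancel, map_one, Module.End.one_apply]
  have hinv2' : ∀ g x, r₂ g (r₂ g⁻¹ x) = x := fun g x => by
    rw [← Module.End.mul_apply, ← map_mul, mul_inv_cancel, map_one, Module.End.one_apply]
  -- the scalars
  have hc : ∀ g, ∃ c : ℂ, ∀ x, ψ (r₁ g x) = c • r₂ g (ψ x) := by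
    intro g
    obtain ⟨c, hc⟩ := Rel.scalar_of_comm h₁.alt h₁.nondeg h₁.ne
      (E := fun x => e.symm (r₂ g⁻¹ (ψ (r₁ g x)))) (by
        intro a b v
        obtain ⟨B, hB⟩ := f₁ _ (Rel.Rk_mem h₁.alt a b)
        have hsym : ∀ z, ψ (e.symm z) = z := fun z => by rw [← he, e.apply_symm_apply]
        apply hinj'
        have h3 := hψ _ hB (e.symm (r₂ g⁻¹ (ψ (r₁ g v))))
        dsimp only at h3 ⊢
        rw [h3, hsym, hsym]
        have h4 := hψ _ (hcj g _ hB) (r₁ g v)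
        dsimp only at h4
        rw [Module.End.mul_apply, Module.End.mul_apply, hinv1] at h4
        rw [h4, Module.End.mul_apply, Module.End.mul_apply, hinv2])
      (by
        intro x y
        simp only [map_add])
      (by
        intro c x
        simp only [map_smul])
    refine ⟨c, fun x => ?_⟩
    have h4 : r₂ g⁻¹ (ψ (r₁ g x)) = c • ψ x := by
      rw [← he x, ← map_smul, ← hc x, e.apply_symm_apply]
    rw [← map_smul, ← h4, hinv2']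
  -- the form
  obtain ⟨d, hd⟩ : ∃ d : ℂ, ∀ x y, ω₂ (ψ x) (ψ y) = d * ω₁ x y := by
    obtain ⟨d, hd⟩ := Rel.form_of_inv h₁.alt h₁.nondeg h₁.ne (β := ω₂.compl₁₂ ψ ψ)
      (fun x => by rw [LinearMap.compl₁₂_apply]; exact h₂.alt _)
      (fun a b x y => by
        obtain ⟨B, hB⟩ := f₁ _ (Rel.Rk_mem h₁.alt a b)
        rw [LinearMap.compl₁₂_apply, LinearMap.compl₁₂_apply, hψ _ hB, hψ _ hB]
        exact s₂ _ hB _ _)
    exact ⟨d, fun x y => by rw [← hd, LinearMap.compl₁₂_apply]⟩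
  have hd0 : d ≠ 0 := by
    rintro rfl
    obtain ⟨a, ha⟩ := h₂.ne
    obtain ⟨y, hy⟩ := om_one h₂.nondeg ha
    obtain ⟨a', rfl⟩ := hsur a
    obtain ⟨y', rfl⟩ := hsur y
    rw [hd, zero_mul] at hy
    exact zero_ne_one hy
  obtain ⟨k, hk⟩ : ∃ k : ℤ, w₂ - w₁ = k + k := (h₂.odd.sub_odd h₁.odd)
  -- the sign
  have hsg : ∀ g, ∃ ε : ℂ, (ε = 1 ∨ ε = -1) ∧
      ∀ x, ψ (r₁ g x) = (ε * (χ g : ℂ) ^ (-k)) • r₂ g (ψ x) := by
    intro g
    obtain ⟨c, hcg⟩ := hc g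
    have hχ : (χ g : ℂ) ≠ 0 := (χ g).ne_zero
    have h5 : (c * (χ g : ℂ) ^ k) ^ 2 = 1 := by
      obtain ⟨a, ha⟩ := h₁.ne
      obtain ⟨y, hy⟩ := om_one h₁.nondeg ha
      have h6 := hd (r₁ g a) (r₁ g y)
      rw [h₁.mul, hy, mul_one, hcg, hcg, map_smul, map_smul, LinearMap.smul_apply, h₂.mul, hd, hy,
        mul_one, smul_eq_mul, smul_eq_mul] at h6
      have h7 : w₂ = w₁ + (k + k) := by omega
      rw [h7, zpow_add₀ hχ, zpow_add₀ hχ] at h6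
      have h8 : (χ g : ℂ) ^ w₁ * d ≠ 0 := mul_ne_zero (zpow_ne_zero _ hχ) hd0
      apply mul_right_cancel₀ h8
      linear_combination h6
    refine ⟨c * (χ g : ℂ) ^ k, mul_self_eq_one_iff.1 ((sq _).symm.trans h5), fun x => ?_⟩
    rw [mul_assoc, ← zpow_add₀ hχ, add_neg_cancel, zpow_zero, mul_one, hcg]
  have hmul : ∀ g g' (ε ε' : ℂ), (∀ x, ψ (r₁ g x) = (ε * (χ g : ℂ) ^ (-k)) • r₂ g (ψ x)) →
      (∀ x, ψ (r₁ g' x) = (ε' * (χ g' : ℂ) ^ (-k)) • r₂ g' (ψ x)) →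
      ∀ x, ψ (r₁ (g * g') x) = (ε * ε' * (χ (g * g') : ℂ) ^ (-k)) • r₂ (g * g') (ψ x) := by
    intro g g' ε ε' h h' x
    rw [map_mul, map_mul, map_mul, Module.End.mul_apply, Module.End.mul_apply, h, h', map_smul,
      smul_smul, Units.val_mul, mul_zpow]
    congr 1
    ring
  have hinvs : ∀ g (ε : ℂ), (ε = 1 ∨ ε = -1) →
      (∀ x, ψ (r₁ g x) = (ε * (χ g : ℂ) ^ (-k)) • r₂ g (ψ x)) →
      ∀ x, ψ (r₁ g⁻¹ x) = (ε * (χ g⁻¹ : ℂ) ^ (-k)) • r₂ g⁻¹ (ψ x) := by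
    intro g ε hε h x
    have hχ : (χ g : ℂ) ≠ 0 := (χ g).ne_zero
    have hinv1' : r₁ g (r₁ g⁻¹ x) = x := by
      rw [← Module.End.mul_apply, ← map_mul, mul_inv_cancel, map_one, Module.End.one_apply]
    have h6 := h (r₁ g⁻¹ x)
    rw [hinv1'] at h6
    have hεε : ε * ε = 1 := by
      rcases hε with rfl | rfl <;> norm_num
    have h9 : (χ g⁻¹ : ℂ) = (χ g : ℂ)⁻¹ := by rw [map_inv, Units.val_inv_eq_inv_val]
    have h7 : ε * ((χ g : ℂ)⁻¹) ^ (-k) * (ε * (χ g : ℂ) ^ (-k)) = 1 := by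
      have h8 : ((χ g : ℂ) ^ (-k))⁻¹ * (χ g : ℂ) ^ (-k) = 1 :=
        inv_mul_cancel₀ (zpow_ne_zero _ hχ)
      rw [inv_zpow]
      linear_combination (ε * ε) * h8 + hεε
    have h10 : (ε * (χ g⁻¹ : ℂ) ^ (-k)) • r₂ g⁻¹ (ψ x) = ψ (r₁ g⁻¹ x) := by
      rw [h6, map_smul, hinv2, smul_smul, h9, h7, one_smul]
    exact h10.symm
  let Δ : Subgroup Γ :=
    { carrier := {g | ∀ x, ψ (r₁ g x) = ((χ g : ℂ) ^ (-k)) • r₂ g (ψ x)}
      one_mem' := by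
        intro x
        rw [map_one, map_one, map_one, Module.End.one_apply, Module.End.one_apply, Units.val_one,
          one_zpow, one_smul]
      mul_mem' := by
        intro g g' hg hg' x
        have := hmul g g' 1 1 (fun x => by rw [one_mul]; exact hg x)
          (fun x => by rw [one_mul]; exact hg' x) x
        rwa [one_mul, one_mul] at this
      inv_mem' := by
        intro g hg x
        have := hinvs g 1 (Or.inl rfl) (fun x => by rw [one_mul]; exact hg x) x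
        rwa [one_mul] at this }
  have hneg : ∀ g, g ∉ Δ → ∀ x, ψ (r₁ g x) = (-1 * (χ g : ℂ) ^ (-k)) • r₂ g (ψ x) := by
    intro g hg
    obtain ⟨ε, hε | hε, h⟩ := hsg g
    · exact absurd (fun x => by rw [h x, hε, one_mul]) hg
    · rwa [hε] at h
  refine ⟨ψ, hψ0, -k, Δ, Pool.Agent.J4.H54.TE.finite_index_two fun g g' hg hg' x => ?_,
    fun g hg x => hg x⟩
  have h6 := hmul g⁻¹ g' (-1) (-1) (hinvs g (-1) (Or.inr rfl) (hneg g hg)) (hneg g' hg') x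
  rwa [neg_mul_neg, one_mul, one_mul] at h6

end Pool.Agent.J4.H71.ST
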